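import Pool.Agent.W829.UC.Fin2
import Pool.Agent.W829.UC.UCA5
import Pool.Agent.W829.UC.UCA5a
import Pool.Agent.W829.UC.UCA5b
import Pool.Agent.W829.UC.UCB2
import Pool.Agent.W829.UC.UCB3
import Pool.Agent.W829.UC.UCC6
import Pool.Agent.W344.UCA1
import Pool.Agent.W344.UCA2
import Pool.Agent.W565.UCA3
import Pool.Agent.W346.UCPL1
import Pool.Agent.W346.UCA4
import Pool.Agent.W565.UCB1
import Pool.Agent.W346.UCPL2
import Pool.Agent.W346.UCB5a
import Pool.Agent.W826.UCB5b
import Pool.Agent.W826.UCC1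
import Pool.Agent.W346.UCC2
import Pool.Agent.W344.UCC3
import Pool.Agent.W344.UCC4
import Pool.Agent.W826.UCC5a
import Pool.Agent.W826.UCC5b
import Pool.Agent.W826.UCC7a
import Pool.Agent.W826.UCC7b
import Pool.Agent.W344.UCC8
import Pool.Agent.W826.UCC9

/-!
# MP_566bac_pr: unique continuation fails on the supercritical percolation cluster of the square
lattice, for every `p` in `(1/2, 1)`

Bernoulli bond percolation on the square lattice with parameter `p ∈ (1/2, 1) = (p_c(2), 1)`.
Almost surely there is exactly one infinite cluster `C`, and there is a non-constant harmonic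
function on `C` which vanishes on a set of positive density. So it is not true that almost surely
every harmonic function on `C` that is bounded on a set of positive density is constant.
-/

set_option autoImplicit false
set_option linter.all false

open MeasureTheory Set Filter
open Pool.Agent.H978R2

namespace Pool.Agent.Results.MP_566bac_pr.WedgeHarmonic

open Pool.Agent.W829.UC

/-- The square lattice: `x` and `y` are joined iff they are at Euclidean distance `1`. -/
def sqLat : SimpleGraph (ℤ × ℤ) where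
  Adj x y := (x.1 - y.1) ^ 2 + (x.2 - y.2) ^ 2 = 1
  symm := ⟨fun x y h => by rw [← h]; ring⟩
  loopless := ⟨fun x h => by simp at h⟩

/-- A percolation configuration: `ω s(x, y) = true` means that the edge `xy` is open. -/
abbrev Config : Type := Sym2 (ℤ × ℤ) → Bool

/-- Bernoulli bond percolation: all edges are open with probability `p`, independently. -/
noncomputable def Perc (p : NNReal) (hp : p ≤ 1) : Measure Config :=
  Measure.infinitePi (fun _ : Sym2 (ℤ × ℤ) => (PMF.bernoulli p hp).toMeasure)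

/-- The graph of the open edges. -/
def openGraph (ω : Config) : SimpleGraph (ℤ × ℤ) where
  Adj x y := sqLat.Adj x y ∧ ω s(x, y) = true
  symm := ⟨fun x y h => ⟨h.1.symm, by rw [Sym2.eq_swap]; exact h.2⟩⟩
  loopless := ⟨fun x h => sqLat.loopless.irrefl x h.1⟩

/-- `C` is an infinite open cluster (connected component of the open graph). -/
def InfiniteCluster (ω : Config) (C : Set (ℤ × ℤ)) : Prop :=
  C.Infinite ∧ ∃ x, C = {y | (openGraph ω).Reachable x y}

/-- `h` is harmonic on `C`: for every `x ∈ C` the value `h x` is the average of `h` over the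
open neighbours of `x`. -/
def Harmonic (ω : Config) (C : Set (ℤ × ℤ)) (h : ℤ × ℤ → ℝ) : Prop :=
  ∀ x ∈ C, h x = (∑ᶠ y ∈ {y | (openGraph ω).Adj x y}, h y) /
    (({y | (openGraph ω).Adj x y}.ncard : ℕ) : ℝ)

/-- The lattice points of the closed Euclidean ball of radius `N` around the origin. -/
def eBall (N : ℕ) : Set (ℤ × ℤ) := {x | x.1 ^ 2 + x.2 ^ 2 ≤ (N : ℤ) ^ 2}

/-- Positive (lower) density. -/
def PositiveDensity (S : Set (ℤ × ℤ)) : Prop :=
  0 < liminf (fun N : ℕ => ((S ∩ eBall N).ncard : ℝ) / ((eBall N).ncard : ℝ)) atTop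

lemma adj_iff (ω : Config) (x y : ℤ × ℤ) : (openGraph ω).Adj x y ↔ (openG lat ω).Adj x y :=
  Iff.rfl

lemma og_eq (ω : Config) : openGraph ω = openG lat ω := by
  ext x y; exact Iff.rfl

lemma infComp_iff (ω : Config) (C : Set (ℤ × ℤ)) :
    InfiniteCluster ω C ↔ InfComp (openG lat ω) C := by
  constructor
  · rintro ⟨h1, x, rfl⟩
    refine ⟨h1, fun y hy z => ?_⟩
    rw [og_eq] at *
    simp only [Set.mem_setOf_eq] at hy ⊢
    exact ⟨fun h => hy.trans h, fun h => hy.symm.trans h⟩
  · rintro ⟨h1, h2⟩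
    obtain ⟨x, hx⟩ := h1.nonempty
    refine ⟨h1, x, ?_⟩
    ext y
    rw [Set.mem_setOf_eq, og_eq]
    exact (h2 x hx y).symm

lemma nbr_set (ω : Config) (x : ℤ × ℤ) :
    {y | (openGraph ω).Adj x y} = (↑(oN ω x) : Set (ℤ × ℤ)) := by
  classical
  ext y
  unfold oN
  rw [Finset.coe_filter, Set.mem_setOf_eq, Set.mem_setOf_eq, adj_iff]
  refine ⟨fun h => ⟨?_, h⟩, fun h => h.2⟩
  exact Pool.Agent.W829.UC.A5.mem_nb h.1

lemma harmonic_of (ω : Config) (C : Set (ℤ × ℤ)) (h : ℤ × ℤ → ℝ) (hh : HarmonicOn ω C h) :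
    Harmonic ω C h := by
  intro x hx
  have h1 := hh x hx
  rw [nbr_set, finsum_mem_coe_finset, Set.ncard_coe_finset]
  exact h1

lemma final_ae (p : NNReal) (hp : p ≤ 1) (h1 : (1 / 2 : ℝ) < p) (h2 : p < 1) :
    ∀ᵐ ω ∂(mu p hp), HH ω :=
  have B1 := Pool.Agent.W565.UCB1.main
  have C1 := Pool.Agent.W826.UCC1.main
  have C3 := Pool.Agent.W344.UCC3.main
  have C7a := Pool.Agent.W826.UCC7a.main
  have C7b := Pool.Agent.W826.UCC7b.main C7a
  ae_HH
    (Pool.Agent.W829.UC.A5.main Pool.Agent.W344.UCA1.main Pool.Agent.W344.UCA2.main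
      Pool.Agent.W565.UCA3.main (Pool.Agent.W346.UCA4.main Pool.Agent.W346.UCPL1.main)
      Pool.Agent.W829.UC.A5a.main Pool.Agent.W829.UC.A5b.main)
    B1 (Pool.Agent.W829.UC.B2.main B1)
    (Pool.Agent.W829.UC.B3.main B1 Pool.Agent.W829.UC.B3a.main)
    (Pool.Agent.W346.UCB5a.main B1 Pool.Agent.W346.UCPL2.main) Pool.Agent.W826.UCB5b.main
    (Pool.Agent.W346.UCC2.main C1) (Pool.Agent.W826.UCC5a.main C3)
    (Pool.Agent.W826.UCC5b.main C3 Pool.Agent.W344.UCC4.main) Pool.Agent.W829.UC.C6.main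
    C7b (Pool.Agent.W344.UCC8.main C7a C7b) Pool.Agent.W826.UCC9.main p hp h1 h2

/-- For bond percolation on the square lattice with parameter `p`, `1/2 < p < 1`: almost surely
there is exactly one infinite cluster `C`, and there is a non-constant harmonic function on `C`
that vanishes on a subset of `C` of positive density. -/
theorem result (p : NNReal) (hp : (1 / 2 : ℝ) < p) (hp1 : p < 1) :
    ∀ᵐ ω ∂(Perc p hp1.le), ∃ C : Set (ℤ × ℤ), InfiniteCluster ω C ∧
      (∀ C' : Set (ℤ × ℤ), InfiniteCluster ω C' → C' = C) ∧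
      ∃ h : ℤ × ℤ → ℝ, Harmonic ω C h ∧ (∃ x ∈ C, ∃ y ∈ C, h x ≠ h y) ∧
        PositiveDensity {x | x ∈ C ∧ h x = 0} := by
  have C7b := Pool.Agent.W826.UCC7b.main Pool.Agent.W826.UCC7a.main
  have hu := (C7b p hp1.le hp).1
  have hH := final_ae p hp1.le hp hp1
  show ∀ᵐ ω ∂(mu p hp1.le), _
  filter_upwards [hu, hH] with ω h1 h2
  obtain ⟨C, h, hC, hh, hne, hq⟩ := h2
  have huni : ∀ C' : Set (ℤ × ℤ), InfComp (openG lat ω) C' → C' = InfV ω := by
    intro C' hC'
    have hsub : ∀ x ∈ C', x ∈ InfV ω := by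
      intro x hx
      show {y | (openG lat ω).Reachable x y}.Infinite
      have : {y | (openG lat ω).Reachable x y} = C' := by
        ext y; exact hC'.2 x hx y
      rw [this]; exact hC'.1
    obtain ⟨x, hx⟩ := hC'.1.nonempty
    ext y
    exact ⟨hsub y, fun hy => (hC'.2 x hx y).1 (h1.2 x (hsub x hx) y hy)⟩
  refine ⟨C, (infComp_iff ω C).2 hC, fun C' hC' => ?_, h, harmonic_of ω C h hh, hne, hq.posDens⟩
  rw [huni C' ((infComp_iff ω C').1 hC'), huni C hC]

end Pool.Agent.Results.MP_566bac_pr.WedgeHarmonic
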